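import Pool.Agent.T9h98.GA.Five2Gal
import Pool.Agent.T9h98.GA.Corank
import Pool.Agent.K3h4.LN.Fr
import Pool.Agent.K3h4.LN.Mk

/-!
# Automorphic constituents of the Galois representations attached to cuspidal automorphic
representations of `GL_5` over `ℚ`

Let `π` be a cuspidal automorphic representation of `GL_5` over `ℚ`, normalised so that
`π ⊗ |det| ^ v` is unitary (for algebraic `π` of odd rank the weight `2 v` is even), let `B` be a finite
set of primes containing `ℓ` and the ramified primes, and let `S p`, `p ∉ B`, be the Satake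
parameters. There is no assumption of regularity, self-duality, temperedness or of Hodge-Tate type.
We say that a cuspidal automorphic representation `Π` of `GL_d`, `1 ≤ d ≤ 4`, with Satake parameters
`A p`, is weakly contained in `π` if `A p ≤ S p` for all `p ∉ B`. This is the case if the `ℓ`-adic
representation `ρ` attached to `π` has a subquotient attached to `Π`, but it may happen as well that
`ρ` is irreducible: if `Π₂` is a cuspidal representation of `GL_2` with trivial central character,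
then the trivial character and `Sym² Π₂` are weakly contained in `Sym⁴ Π₂`. What we use about `π` and
`Π` is

* `LFunctions B v S`: the prime number theorems for `L(s, π × π~)` and `L(s, π ⊗ c)`, `c` a Dirichlet
  character (Jacquet and Shalika), and that the functions `L(s, Λ²π ⊗ c)` have neither a zero nor a
  pole at `s = 1` (Shahidi; Jacquet and Shalika, Kim). As the prime number theorem for
  `L(s, Λ²π ⊗ c)` is not known in general, the second property is used in the following weak form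
  only: *if* the mean value over the prime powers of the coefficients of `log L(s, Λ²π ⊗ c)`
  (respectively of `log L(s, Λ²π ⊗ c) - log L(s, Λ²π~ ⊗ e)`) exists, it is zero;
* `Pair B v S A d`: the central character of `Π` is a power of the norm times a Dirichlet character;
  the prime number theorems for `L(s, Π × Π~)`, `L(s, π × Π ⊗ c)` and `L(s, π × Π~ ⊗ c)` (Jacquet,
  Piatetski-Shapiro and Shalika; Shahidi); if `d = 2` also the prime number theorems for
  `L(s, π × Ad Π ⊗ c)` and `L(s, Π × Ad Π ⊗ c)` (`Ad Π` is automorphic on `GL_3`, Gelbart and Jacquet),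
  and the theorem of Shahidi that `L(s, Λ²π × Π~ ⊗ c)` is not zero at `s = 1` (the case `A_4 × A_1` of
  `E_6`: the second `L`-function there is the one of `π~` up to a twist). As we do not suppose that
  `Λ²π` is automorphic, this is again used in the weak form: *if* the mean value of the coefficients
  of `log L(s, Λ²π × Π~ ⊗ c)` exists, it is the order of the pole at `s = 1`, so it is not negative;
* the Hecke polynomials of `π` have coefficients in a number field, and the bound of Jacquet and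
  Shalika holds at one prime `p ∉ B`.

**Theorem.** Let `ρ` be a continuous five-dimensional `ℓ`-adic representation attached to `π`.

(1) If a cuspidal representation `Π` of `GL_d`, `1 ≤ d ≤ 4`, is weakly contained in `π`, for example if
some subquotient of `ρ` is attached to `Π`, then either `d = 1` and `Π ^ 5` is the central character
of `π`, or `d = 3` and `π` is essentially self-dual. So no two-dimensional subquotient of `ρ` is
modular, and if `π` is not essentially self-dual, no subquotient of `ρ` of dimension two, three or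
four is automorphic.

(2) If every irreducible two-dimensional subquotient of `ρ` is modular, then `ρ` is irreducible or the
sum of a character `χ` with `χ ^ 5 = det ρ` and of an irreducible four-dimensional representation:
the dimension of every subrepresentation is `0`, `1`, `4` or `5`, and if it is `1` or `4` there is
such a character `χ`.

For regular algebraic `π` the irreducible two-dimensional subquotients of `ρ` are in general known to
be modular: they are regular and de Rham, so modular if odd (Kisin, Emerton, Pan), and the even case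
is excluded by Calegari under weak conditions.

The proof for `d = 2`. Let `S = A + T`, in terms of the normalised parameters, `a = det A` and
`e = det T` (these are Dirichlet characters). Then `Λ²T = e T~`, `A~ = a⁻¹ A`, and so
`Λ²S · A~ = S + S (|A|² - 1) - A (|A|² - 1) + e (S A)~ - e a⁻¹ |A|²`. We multiply by the character
`f = a e⁻¹` and take the mean values: the first, second and fourth term have mean value `0`, the third
one has mean value `μ ≥ 0`, the last one has mean value one. So the order of the pole of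
`L(s, Λ²π × Π~ ⊗ f)` at `s = 1` is `- μ - 1 < 0`, a contradiction. If `d = 3` then `T~ = e⁻¹ T` and
`|S|² = S A~ + e⁻¹ S² - e⁻¹ S A`. If `d = 4` then `1 = |S - A|²`, but the right-hand side has mean
value two. If `d = 1` then `a⁻² Λ²S - e a⁻² Λ²S~ = a⁻¹ S - e a⁻³ S~ - 1 + e a⁻⁴`, and so
`e a⁻⁴ = 1`.
-/

set_option autoImplicit false

namespace Pool.Agent.Results.MP_fa5bba_nt.RankFive

open Filter Topology NumberField Module Matrix

/-! ### Automorphic side -/

/-- `Q` is a prime ideal above the prime number `p` of the ring of all algebraic integers. -/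
def PrimeOver (p : ℕ) (Q : Ideal (𝓞 (AlgebraicClosure ℚ))) : Prop :=
  Q.IsPrime ∧ (p : 𝓞 (AlgebraicClosure ℚ)) ∈ Q

/-- `g` is in the inertia group at `Q`. -/
def IsInertia (Q : Ideal (𝓞 (AlgebraicClosure ℚ))) (g : Gal(AlgebraicClosure ℚ/ℚ)) : Prop :=
  ∀ x : 𝓞 (AlgebraicClosure ℚ), g • x - x ∈ Q

/-- `g` is an (arithmetic) Frobenius element at the prime ideal `Q` above `p`. -/
def IsFrobenius (p : ℕ) (Q : Ideal (𝓞 (AlgebraicClosure ℚ))) (g : Gal(AlgebraicClosure ℚ/ℚ)) :
    Prop := ∀ x : 𝓞 (AlgebraicClosure ℚ), g • x - x ^ p ∈ Q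

/-- `c` is a Dirichlet character unramified outside `B`: there is a character `η` of the absolute
Galois group of `ℚ` with open kernel, unramified at all primes `p ∉ B`, and `c p = η (Frob_p)`. -/
def IsTwist (B : Finset ℕ) (c : ℕ → ℂ) : Prop :=
  ∃ η : Gal(AlgebraicClosure ℚ/ℚ) →* ℂˣ, IsOpen (η.ker : Set Gal(AlgebraicClosure ℚ/ℚ)) ∧
    ∀ p : ℕ, p.Prime → p ∉ B → ∀ Q, PrimeOver p Q →
      (∀ g, IsInertia Q g → η g = 1) ∧ ∀ g, IsFrobenius p Q g → (η g : ℂ) = c p

/-- the sum of the `k`-th powers of the members of `S` -/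
noncomputable def pw (S : Multiset ℂ) (k : ℕ) : ℂ := (S.map (fun a => a ^ k)).sum

/-- the second elementary symmetric function of the `k`-th powers of the members of `S` -/
noncomputable def el (S : Multiset ℂ) (k : ℕ) : ℂ := (pw S k ^ 2 - pw S (2 * k)) / 2

/-- the sum of `f p k / k` over the prime powers `p ^ k ≤ x`, `p ∉ B`, divided by `π(x)` -/
noncomputable def avg (B : Finset ℕ) (f : ℕ → ℕ → ℂ) (x : ℕ) : ℂ :=
  (∑ p ∈ (Finset.range (x + 1)).filter (fun p => p.Prime ∧ p ∉ B),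
    ∑ k ∈ Finset.Icc 1 (Nat.log p x), f p k / (k : ℂ)) / (Nat.primeCounting x : ℂ)

/-- `f` has the mean value `m` over the prime powers -/
def HasMean (B : Finset ℕ) (f : ℕ → ℕ → ℂ) (m : ℝ) : Prop :=
  Tendsto (avg B f) atTop (𝓝 (m : ℂ))

/-- What is used about the `L`-functions of a cuspidal automorphic representation `π` of `GL_5` with
Satake parameters `p ^ v ·`(unitary parameters)` = S p`. -/
structure LFunctions (B : Finset ℕ) (v : ℤ) (S : ℕ → Multiset ℂ) : Prop where
  /-- `π_p ⊗ |det| ^ v` is unitary -/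
  unitary : ∀ p : ℕ, p.Prime → p ∉ B →
    (S p).map (fun a => (p : ℂ) ^ (2 * v) / (starRingEnd ℂ) a) = S p
  /-- `L(s, π × π~)` has a simple pole at `s = 1` -/
  self : HasMean B (fun p k => ((‖pw (S p) k‖ ^ 2 / (p : ℝ) ^ (2 * v * k) : ℝ) : ℂ)) 1
  /-- `L(s, π ⊗ c)` has no pole or zero on the line `Re s = 1` -/
  standard : ∀ c, IsTwist B c →
    HasMean B (fun p k => c p ^ k * (pw (S p) k / (p : ℂ) ^ (v * k))) 0
  /-- `L(s, Λ²π ⊗ c)` has no pole or zero at `s = 1`. So if the mean value exists, it is zero. -/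
  exterior : ∀ c, IsTwist B c → ∀ m : ℝ,
    HasMean B (fun p k => c p ^ k * (el (S p) k / (p : ℂ) ^ (2 * v * k))) m → m = 0
  /-- The same for the quotient of `L(s, Λ²π ⊗ c)` and `L(s, Λ²π~ ⊗ e)`. -/
  exteriorDual : ∀ c e, IsTwist B c → IsTwist B e → ∀ m : ℝ,
    HasMean B (fun p k => c p ^ k * (el (S p) k / (p : ℂ) ^ (2 * v * k)) -
      e p ^ k * (starRingEnd ℂ) (el (S p) k / (p : ℂ) ^ (2 * v * k))) m → m = 0

/-- What is used about `π` and a cuspidal automorphic representation `Π` of `GL_d`, `1 ≤ d ≤ 4`, with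
Satake parameters `p ^ v ·`(unitary parameters)` = A p`. If `d = 2` the trace of `Ad Π` is
`|tr Π|² - 1`. -/
structure Pair (B : Finset ℕ) (v : ℤ) (S A : ℕ → Multiset ℂ) (d : ℕ) : Prop where
  card : ∀ p : ℕ, p.Prime → p ∉ B → Multiset.card (A p) = d
  /-- `Π_p ⊗ |det| ^ v` is unitary -/
  unitary : ∀ p : ℕ, p.Prime → p ∉ B →
    (A p).map (fun a => (p : ℂ) ^ (2 * v) / (starRingEnd ℂ) a) = A p
  /-- the central character -/
  central : ∃ δ, IsTwist B δ ∧ ∀ p : ℕ, p.Prime → p ∉ B → (A p).prod = (p : ℂ) ^ (v * d) * δ p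
  /-- `L(s, Π × Π~)` has a simple pole at `s = 1` -/
  self : HasMean B (fun p k => ((‖pw (A p) k‖ ^ 2 / (p : ℝ) ^ (2 * v * k) : ℝ) : ℂ)) 1
  /-- `L(s, π × Π ⊗ c)` has no pole or zero on the line `Re s = 1` -/
  rankin : ∀ c, IsTwist B c → HasMean B (fun p k => c p ^ k *
    (pw (S p) k / (p : ℂ) ^ (v * k) * (pw (A p) k / (p : ℂ) ^ (v * k)))) 0
  /-- `L(s, π × Π~ ⊗ c)` has no pole or zero on the line `Re s = 1` -/
  rankinDual : ∀ c, IsTwist B c → HasMean B (fun p k => c p ^ k *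
    (pw (S p) k / (p : ℂ) ^ (v * k) * (starRingEnd ℂ) (pw (A p) k / (p : ℂ) ^ (v * k)))) 0
  /-- `L(s, π × Ad Π ⊗ c)` has no pole or zero on the line `Re s = 1` -/
  adjoint : d = 2 → ∀ c, IsTwist B c → HasMean B (fun p k => c p ^ k *
    (pw (S p) k / (p : ℂ) ^ (v * k) *
      (((‖pw (A p) k‖ ^ 2 / (p : ℝ) ^ (2 * v * k) : ℝ) : ℂ) - 1))) 0
  /-- the order of the pole of `L(s, Π × Ad Π ⊗ c)` at `s = 1` is not negative -/
  cubic : d = 2 → ∀ c, IsTwist B c → ∃ m : ℝ, 0 ≤ m ∧ HasMean B (fun p k => c p ^ k *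
    (pw (A p) k / (p : ℂ) ^ (v * k) *
      (((‖pw (A p) k‖ ^ 2 / (p : ℝ) ^ (2 * v * k) : ℝ) : ℂ) - 1))) m
  /-- `L(s, Λ²π × Π~ ⊗ c)` has no zero at `s = 1` (Shahidi). So if the mean value exists, it is not
  negative. -/
  exterior : d = 2 → ∀ c, IsTwist B c → ∀ m : ℝ, HasMean B (fun p k => c p ^ k *
    (el (S p) k / (p : ℂ) ^ (2 * v * k) *
      (starRingEnd ℂ) (pw (A p) k / (p : ℂ) ^ (v * k)))) m → 0 ≤ m

/-- The representation with the Satake parameters `A p` is weakly contained in `π`. -/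
def WeaklyContained (B : Finset ℕ) (S A : ℕ → Multiset ℂ) : Prop :=
  ∀ p : ℕ, p.Prime → p ∉ B → A p ≤ S p

/-- `π` is essentially self-dual: `L(s, π × π ⊗ e)` has a simple pole at `s = 1` for some Dirichlet
character `e`. -/
def EssSelfDual (B : Finset ℕ) (v : ℤ) (S : ℕ → Multiset ℂ) : Prop :=
  ∃ e, IsTwist B e ∧
    HasMean B (fun p k => e p ^ k * (pw (S p) k ^ 2 / (p : ℂ) ^ (2 * v * k))) 1

/-! ### Galois side -/

section Galois

variable {ℓ : ℕ} [hℓ : Fact ℓ.Prime] {n : ℕ}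

/-- The matrix of `g`. -/
noncomputable def mat (ρ : Gal(AlgebraicClosure ℚ/ℚ) →* GL (Fin n) (PadicAlgCl ℓ))
    (g : Gal(AlgebraicClosure ℚ/ℚ)) : Matrix (Fin n) (Fin n) (PadicAlgCl ℓ) :=
  (ρ g : GL (Fin n) (PadicAlgCl ℓ))

/-- The representation `ρ` is unramified at `p`, and the eigenvalues (with multiplicities) of every
geometric Frobenius element at `p` correspond under `ι` to the complex numbers in `S`. -/
structure AttachedAt (ρ : Gal(AlgebraicClosure ℚ/ℚ) →* GL (Fin n) (PadicAlgCl ℓ))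
    (ι : PadicAlgCl ℓ →+* ℂ) (p : ℕ) (S : Multiset ℂ) : Prop where
  unramified : ∀ Q, PrimeOver p Q → ∀ g, IsInertia Q g → ρ g = 1
  frobenius : ∀ Q, PrimeOver p Q → ∀ g, IsFrobenius p Q g → ((mat ρ g⁻¹).charpoly.map ι).roots = S

/-- `U` is a subrepresentation of `ρ`. -/
def Stable (ρ : Gal(AlgebraicClosure ℚ/ℚ) →* GL (Fin n) (PadicAlgCl ℓ))
    (U : Submodule (PadicAlgCl ℓ) (Fin n → PadicAlgCl ℓ)) : Prop := ∀ g, ∀ x ∈ U, mat ρ g *ᵥ x ∈ U

/-- The eigenvalues (with multiplicities) of `g` on the subrepresentation `U`. -/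
noncomputable def eigen (ρ : Gal(AlgebraicClosure ℚ/ℚ) →* GL (Fin n) (PadicAlgCl ℓ))
    {U : Submodule (PadicAlgCl ℓ) (Fin n → PadicAlgCl ℓ)} (hU : Stable ρ U)
    (g : Gal(AlgebraicClosure ℚ/ℚ)) : Multiset (PadicAlgCl ℓ) :=
  ((Matrix.mulVecLin (mat ρ g)).restrict (hU g)).charpoly.roots

/-- The two-dimensional subquotient `V / U` of `ρ` is modular: it is attached to a cuspidal
representation `Π` of `GL_2` with Satake parameters `A p`, that is, for every `p ∉ B` the eigenvalues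
of the geometric Frobenius elements at `p` on `V` are those on `U` and `A p`. -/
def Modular (ρ : Gal(AlgebraicClosure ℚ/ℚ) →* GL (Fin n) (PadicAlgCl ℓ)) (ι : PadicAlgCl ℓ →+* ℂ)
    (B : Finset ℕ) (v : ℤ) (S : ℕ → Multiset ℂ)
    {U V : Submodule (PadicAlgCl ℓ) (Fin n → PadicAlgCl ℓ)} (hU : Stable ρ U) (hV : Stable ρ V) :
    Prop :=
  ∃ A, Pair B v S A 2 ∧ ∀ p : ℕ, p.Prime → p ∉ B → ∀ Q, PrimeOver p Q → ∀ g,
    IsFrobenius p Q g → (eigen ρ hV g⁻¹).map ι = (eigen ρ hU g⁻¹).map ι + A p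

end Galois

theorem pairTwo {B : Finset ℕ} {v : ℤ} {S A : ℕ → Multiset ℂ} (h : Pair B v S A 2) :
    Pool.Agent.T9h98.GA.PR B v S A := by
  obtain ⟨δ, h1, h2⟩ := h.central
  refine ⟨h.card, h.unitary, ⟨δ, h1, fun p hp hpB => ?_⟩, h.rankin, h.adjoint rfl, h.self,
    h.cubic rfl, h.exterior rfl⟩
  rw [h2 p hp hpB, Nat.cast_ofNat, mul_comm v]

/-- **Main result.** -/
theorem result (ℓ : ℕ) [Fact ℓ.Prime] (ι : PadicAlgCl ℓ →+* ℂ) (B : Finset ℕ) (hℓ : ℓ ∈ B)
    (v : ℤ) (S : ℕ → Multiset ℂ) (hL : LFunctions B v S)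
    (hE : ∃ E : IntermediateField ℚ ℂ, FiniteDimensional ℚ E ∧ ∀ p : ℕ, p.Prime → p ∉ B →
      ∃ f : Polynomial E, (f.map (algebraMap E ℂ)).roots = S p)
    (hJS : ∃ p : ℕ, p.Prime ∧ p ∉ B ∧
      ∀ a ∈ S p, (p : ℝ) ^ (2 * v - 1) < ‖a‖ ^ 2 ∧ ‖a‖ ^ 2 < (p : ℝ) ^ (2 * v + 1))
    (ρ : Gal(AlgebraicClosure ℚ/ℚ) →* GL (Fin 5) (PadicAlgCl ℓ)) (hρ : Continuous ρ)
    (hatt : ∀ p : ℕ, p.Prime → p ∉ B → AttachedAt ρ ι p (S p)) :
    (∀ (d : ℕ) (A : ℕ → Multiset ℂ), 1 ≤ d → d ≤ 4 → Pair B v S A d → WeaklyContained B S A →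
      (d = 1 ∧ ∀ p : ℕ, p.Prime → p ∉ B → (A p).prod ^ 5 = (S p).prod) ∨
      (d = 3 ∧ EssSelfDual B v S)) ∧
    ((∀ (U V : Submodule (PadicAlgCl ℓ) (Fin 5 → PadicAlgCl ℓ)) (hU : Stable ρ U)
        (hV : Stable ρ V), U ≤ V → finrank (PadicAlgCl ℓ) V = finrank (PadicAlgCl ℓ) U + 2 →
        (∀ W, Stable ρ W → U ≤ W → W ≤ V → W = U ∨ W = V) → Modular ρ ι B v S hU hV) →
      ∀ W, Stable ρ W →
        (finrank (PadicAlgCl ℓ) W = 0 ∨ finrank (PadicAlgCl ℓ) W = 1 ∨
          finrank (PadicAlgCl ℓ) W = 4 ∨ finrank (PadicAlgCl ℓ) W = 5) ∧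
        ((finrank (PadicAlgCl ℓ) W = 1 ∨ finrank (PadicAlgCl ℓ) W = 4) →
          ∃ χ : Gal(AlgebraicClosure ℚ/ℚ) →* (PadicAlgCl ℓ)ˣ, Continuous χ ∧
            ∀ g, ((χ g : (PadicAlgCl ℓ)ˣ) : PadicAlgCl ℓ) ∈ (mat ρ g).charpoly.roots ∧
              ((χ g : (PadicAlgCl ℓ)ˣ) : PadicAlgCl ℓ) ^ 5 = (mat ρ g).det)) := by
  obtain ⟨E, hEf, hE'⟩ := hE
  have hatt' : Pool.Agent.K3h66.LN.Att ρ ι B {p : ℕ | p.Prime ∧ p ∉ B} S :=
    Pool.Agent.T9h98.GA.att_all hℓ E hE' hρ fun p hp hpB =>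
      ⟨(hatt p hp hpB).unramified, (hatt p hp hpB).frobenius⟩
  have hchar := Pool.Agent.K3h67.LN.t_CHAR Pool.Agent.K3h4.LN.t_FR
  have hC := Pool.Agent.Y726.ZI.t1
  have hLG : ∀ v' : ℤ, 2 * v = 2 * v' → Pool.Agent.T9h98.GA.LG B v' S := by
    intro v' hv'
    obtain rfl : v = v' := by omega
    exact ⟨hL.unitary, hL.standard, fun c hc m hm => (hL.exterior c hc m hm).ge⟩
  have hodd : ∀ v' : ℤ, 2 * v = 2 * v' → ∀ c e, IsTwist B c → IsTwist B e → ∀ m : ℝ,
      HasMean B (fun p k => c p ^ k * (el (S p) k / (p : ℂ) ^ (2 * v' * k)) -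
        e p ^ k * (starRingEnd ℂ) (el (S p) k / (p : ℂ) ^ (2 * v' * k))) m → m = 0 := by
    intro v' hv'
    obtain rfl : v = v' := by omega
    exact hL.exteriorDual
  have hbound : ∀ (m : ℕ) (χ : Fin m → Gal(AlgebraicClosure ℚ/ℚ) →* (PadicAlgCl ℓ)ˣ),
      (∀ i, Continuous (χ i)) →
      (∀ g, Multiset.map (fun i => ((χ i g : (PadicAlgCl ℓ)ˣ) : PadicAlgCl ℓ))
        Finset.univ.val ≤ (mat ρ g).charpoly.roots) → m ≤ 1 := by
    intro m χ hχ hw
    have := Pool.Agent.T9h98.GA.bound' hchar hC hatt' hLG E hE' hJS (by norm_num) χ hχ hw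
    omega
  have hfive : ∀ χ : Gal(AlgebraicClosure ℚ/ℚ) →* (PadicAlgCl ℓ)ˣ, Continuous χ →
      (∀ g, ((χ g : (PadicAlgCl ℓ)ˣ) : PadicAlgCl ℓ) ∈ (mat ρ g).charpoly.roots) →
      ∀ g, ((χ g : (PadicAlgCl ℓ)ˣ) : PadicAlgCl ℓ) ^ 5 = (mat ρ g).det := fun χ hχ hev =>
    Pool.Agent.T9h98.GA.five_gal' hchar hC hatt' hLG hodd E hE' hJS rfl χ hχ hev
  have h1 : ∀ A, Pair B v S A 2 → ¬ WeaklyContained B S A := fun A hA hle =>
    Pool.Agent.T9h98.GA.not_le hchar hatt' rfl hL.unitary hL.standard (pairTwo hA) hle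
  refine ⟨fun d A hd1 hd4 hA hle => ?_, fun hmod W hW => ?_⟩
  · obtain ⟨ε, hε, hT⟩ := Pool.Agent.T9h98.GA.compl_pair hchar hatt' hL.unitary hA.card
      hA.central hle
    obtain rfl | rfl | rfl | rfl : d = 1 ∨ d = 2 ∨ d = 3 ∨ d = 4 := by omega
    · left
      refine ⟨rfl, ?_⟩
      obtain ⟨δ, hδ, hδv⟩ := hA.central
      choose! T h2 h3 h4 using hT
      have h5 := Pool.Agent.T9h98.GA.five' hC (hLG v rfl) hL.exteriorDual hδ hε T
        (fun p hp hpB => by
          refine ⟨?_, by have := h3 p hp hpB; omega, by rw [h4 p hp hpB]; norm_num⟩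
          obtain ⟨a, ha⟩ := Multiset.card_eq_one.1 (hA.card p hp hpB)
          have h6 := hδv p hp hpB
          rw [ha, Multiset.prod_singleton, Nat.cast_one, mul_one] at h6
          rw [h2 p hp hpB, ha, h6]
          rfl)
      intro p hp hpB
      have hp0 : (p : ℂ) ≠ 0 := by exact_mod_cast hp.ne_zero
      have h7 : (p : ℂ) ^ (v * ((5 : ℕ) - (1 : ℕ) : ℤ)) = ((p : ℂ) ^ v) ^ 4 := by
        have h8 : ((5 : ℕ) - (1 : ℕ) : ℤ) = ((4 : ℕ) : ℤ) := by norm_num
        rw [h8, _root_.zpow_mul, zpow_natCast]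
      rw [h2 p hp hpB, Multiset.prod_add, h4 p hp hpB, h5 p hp hpB, hδv p hp hpB, h7,
        Nat.cast_one, mul_one]
      ring
    · exact absurd hle (h1 A hA)
    · right
      refine ⟨rfl, Pool.Agent.T9h98.GA.corank_two hL.unitary hA.unitary hε hL.self hA.rankin
        hA.rankinDual fun p hp hpB => ?_⟩
      obtain ⟨T, h2, h3, h4⟩ := hT p hp hpB
      refine ⟨T, h2, by omega, ?_⟩
      rw [h4]
      norm_num [mul_comm v]
    · exfalso
      refine Pool.Agent.T9h98.GA.corank_one hC hL.unitary hA.unitary hL.self hA.self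
        hA.rankinDual (fun p hp hpB => Pool.Agent.K3h66.LN.zero_notMem hatt' hp hpB)
        fun p hp hpB => ?_
      obtain ⟨T, h2, h3, h4⟩ := hT p hp hpB
      exact ⟨T, h2, by omega⟩
  · obtain ⟨h2, h3⟩ := Pool.Agent.T9h98.GA.dims hbound hatt' rfl
      (fun U V hU hV hUV hd hirr => by
        obtain ⟨A, hA, hsub⟩ := hmod U V hU hV hUV hd hirr
        exact h1 A hA (Pool.Agent.T9h98.GA.sub_le hatt' hU hV hsub)) W hW
    refine ⟨h2, fun h14 => ?_⟩
    obtain ⟨χ, hχ, hχv⟩ := h3 h14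
    exact ⟨χ, hχ, fun g => ⟨hχv g, hfive χ hχ hχv g⟩⟩

end Pool.Agent.Results.MP_fa5bba_nt.RankFive
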