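import Pool.Agent.T9h98.GA.PureGal
import Pool.Agent.K3h4.LN.Fr
import Pool.Agent.K3h4.LN.Mk

/-!
# The weak abelian part of the Galois representation of a tempered cuspidal representation

Let `π` be a cuspidal automorphic representation of `GL_n` over `ℚ`, normalised so that
`π ⊗ |det| ^ (w / 2)` is unitary, let `B` be a finite set of primes containing `ℓ` and the ramified
primes of `π`, and let `S p`, `p ∉ B`, be the Satake parameters. We suppose that `π` is tempered at
all primes `p ∉ B` (the Ramanujan conjecture, known for all regular essentially self-dual `π`) and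
that the Hecke polynomials have coefficients in a number field. What we use about the `L`-functions
of `π` is the structure `LFunctions B w S`: the prime number theorems for `L(s, π ⊗ c)`,
`L(s, π × π~ ⊗ c)`, `L(s, Λ²π ⊗ c)` and `L(s, Sym²π ⊗ c)`, `c` a Dirichlet character (Jacquet,
Piatetski-Shapiro, Shalika, Shahidi: these functions have no zero on the line `Re s = 1`).

**Theorem.** Let `ρ` be a continuous `ℓ`-adic representation attached to `π` (unramified at all
primes `p ∉ B`, the eigenvalues of the geometric Frobenius elements correspond to the Satake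
parameters), and let `χ_1, …, χ_m` be continuous characters of the absolute Galois group such that,
for each `g`, the family `χ_1(g), …, χ_m(g)` is contained in the family of the eigenvalues of `ρ(g)`
(a weak abelian direct summand of `ρ` in the sense of Böckle and Hui; for example, characters which
are different Jordan-Hölder constituents of `ρ`).

(1) If `π` is not of orthogonal type, that is, no function `L(s, Sym²π ⊗ c)` has a pole at `1`
(for example, if `π` is not essentially self-dual), then `3 m < n`.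

(2) If `π` has no self-twists, that is, `π ⊗ c ≇ π` for all Dirichlet characters `c ≠ 1`, then
`3 m ≤ n`.

The proof. By the `ℓ`-adic six exponentials theorem and a Galois conjugation argument, the `χ_i`
are powers of the norm times Dirichlet characters `c_i`. Let `K` be the set of the prime powers
`p ^ k` with `c_i(p) ^ k = 1` for all `i`. On `K` the sum of the (normalised) Satake parameters of `π`
is `m + t`, `t` the sum of `d = n - m` complex numbers `a_j` of absolute value one. The prime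
number theorems give the mean values of `t`, `|t|²`, `t²` and `∑ a_j²` over `K`: they are `-m`,
`m² + q`, `m² + λ + σ` and `σ - λ - m`, where `q ≥ 1` is the number of the self-twists in the group
generated by the `c_i` and `λ`, `σ` are the numbers of the poles of the twists of `Λ²π` and `Sym²π`. The
pointwise inequality `Re ∑ a_j² ≥ 2 (Re t)² / d - d` (Cauchy-Schwarz) gives the result.
-/

set_option autoImplicit false

namespace Pool.Agent.Results.MP_fa5bba_nt.TemperedOneThird

open Filter Topology NumberField Module Matrix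

/-! ### Automorphic side -/

/-- `Q` is a prime ideal above the prime number `p` of the ring of all algebraic integers. -/
def PrimeOver (p : ℕ) (Q : Ideal (𝓞 (AlgebraicClosure ℚ))) : Prop :=
  Q.IsPrime ∧ (p : 𝓞 (AlgebraicClosure ℚ)) ∈ Q

/-- `g` is in the inertia group at `Q`. -/
def IsInertia (Q : Ideal (𝓞 (AlgebraicClosure ℚ))) (g : Gal(AlgebraicClosure ℚ/ℚ)) : Prop :=
  ∀ x : 𝓞 (AlgebraicClosure ℚ), g • x - x ∈ Q

/-- `g` is an (arithmetic) Frobenius element at the prime ideal `Q` above `p`. -/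
def IsFrobenius (p : ℕ) (Q : Ideal (𝓞 (AlgebraicClosure ℚ))) (g : Gal(AlgebraicClosure ℚ/ℚ)) :
    Prop := ∀ x : 𝓞 (AlgebraicClosure ℚ), g • x - x ^ p ∈ Q

/-- `c` is a Dirichlet character unramified outside `B`: there is a character `η` of the absolute
Galois group of `ℚ` with open kernel, unramified at all primes `p ∉ B`, and `c p = η (Frob_p)`. -/
def IsTwist (B : Finset ℕ) (c : ℕ → ℂ) : Prop :=
  ∃ η : Gal(AlgebraicClosure ℚ/ℚ) →* ℂˣ, IsOpen (η.ker : Set Gal(AlgebraicClosure ℚ/ℚ)) ∧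
    ∀ p : ℕ, p.Prime → p ∉ B → ∀ Q, PrimeOver p Q →
      (∀ g, IsInertia Q g → η g = 1) ∧ ∀ g, IsFrobenius p Q g → (η g : ℂ) = c p

/-- the sum of the `k`-th powers of the members of `S` -/
noncomputable def pw (S : Multiset ℂ) (k : ℕ) : ℂ := (S.map (fun a => a ^ k)).sum

/-- the second elementary symmetric function of the `k`-th powers of the members of `S` -/
noncomputable def el (S : Multiset ℂ) (k : ℕ) : ℂ := (pw S k ^ 2 - pw S (2 * k)) / 2

/-- the second complete symmetric function of the `k`-th powers of the members of `S` -/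
noncomputable def sy (S : Multiset ℂ) (k : ℕ) : ℂ := (pw S k ^ 2 + pw S (2 * k)) / 2

/-- the sum of `f p k / k` over the prime powers `p ^ k ≤ x`, `p ∉ B`, divided by `π(x)` -/
noncomputable def avg (B : Finset ℕ) (f : ℕ → ℕ → ℂ) (x : ℕ) : ℂ :=
  (∑ p ∈ (Finset.range (x + 1)).filter (fun p => p.Prime ∧ p ∉ B),
    ∑ k ∈ Finset.Icc 1 (Nat.log p x), f p k / (k : ℂ)) / (Nat.primeCounting x : ℂ)

/-- `f` has the mean value `m` over the prime powers -/
def HasMean (B : Finset ℕ) (f : ℕ → ℕ → ℂ) (m : ℝ) : Prop :=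
  Tendsto (avg B f) atTop (𝓝 (m : ℂ))

/-- The prime number theorems for the `L`-functions `L(s, π ⊗ c)`, `L(s, π × π~ ⊗ c)`,
`L(s, Λ²π ⊗ c)` and `L(s, Sym²π ⊗ c)` of a cuspidal automorphic representation `π` of `GL_n` with
Satake parameters `p ^ (w / 2) ·`(unitary parameters)` = S p`. In `standard` the weight `w` is
supposed to be even, `w = 2 v`; this is the only case needed. -/
structure LFunctions (B : Finset ℕ) (w : ℤ) (S : ℕ → Multiset ℂ) : Prop where
  /-- `L(s, π × π~)` has a simple pole at `1` -/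
  self : HasMean B (fun p k => ((‖pw (S p) k‖ ^ 2 / (p : ℝ) ^ (w * k) : ℝ) : ℂ)) 1
  /-- the order of the pole of `L(s, π × π~ ⊗ c)` at `1` is not negative -/
  twist : ∀ c, IsTwist B c → ∃ m : ℝ, 0 ≤ m ∧
    HasMean B (fun p k => c p ^ k * ((‖pw (S p) k‖ ^ 2 / (p : ℝ) ^ (w * k) : ℝ) : ℂ)) m
  /-- `L(s, π ⊗ c)` has no pole or zero on the line `Re s = 1` -/
  standard : ∀ v : ℤ, w = 2 * v → ∀ c, IsTwist B c →
    HasMean B (fun p k => c p ^ k * (pw (S p) k / (p : ℂ) ^ (v * k))) 0
  /-- the order of the pole of `L(s, Λ²π ⊗ c)` at `1` is not negative -/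
  exterior : ∀ c, IsTwist B c → ∃ m : ℝ, 0 ≤ m ∧
    HasMean B (fun p k => c p ^ k * (el (S p) k / (p : ℂ) ^ (w * k))) m
  /-- the order of the pole of `L(s, Sym²π ⊗ c)` at `1` is not negative -/
  symmetric : ∀ c, IsTwist B c → ∃ m : ℝ, 0 ≤ m ∧
    HasMean B (fun p k => c p ^ k * (sy (S p) k / (p : ℂ) ^ (w * k))) m

/-- No function `L(s, Sym²π ⊗ c)` has a pole at `1`. -/
def NotOrthogonal (B : Finset ℕ) (w : ℤ) (S : ℕ → Multiset ℂ) : Prop :=
  ∀ c, IsTwist B c → HasMean B (fun p k => c p ^ k * (sy (S p) k / (p : ℂ) ^ (w * k))) 0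

/-- `π ⊗ c ≇ π` for all Dirichlet characters `c ≠ 1`: `L(s, π × π~ ⊗ c)` has no pole at `1`. -/
def NoSelfTwist (B : Finset ℕ) (w : ℤ) (S : ℕ → Multiset ℂ) : Prop :=
  ∀ c, IsTwist B c → (∃ p : ℕ, p.Prime ∧ p ∉ B ∧ c p ≠ 1) →
    HasMean B (fun p k => c p ^ k * ((‖pw (S p) k‖ ^ 2 / (p : ℝ) ^ (w * k) : ℝ) : ℂ)) 0

/-! ### Galois side -/

section Galois

variable {ℓ : ℕ} [hℓ : Fact ℓ.Prime] {n : ℕ}

/-- The matrix of `g`. -/
noncomputable def mat (ρ : Gal(AlgebraicClosure ℚ/ℚ) →* GL (Fin n) (PadicAlgCl ℓ))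
    (g : Gal(AlgebraicClosure ℚ/ℚ)) : Matrix (Fin n) (Fin n) (PadicAlgCl ℓ) :=
  (ρ g : GL (Fin n) (PadicAlgCl ℓ))

/-- The representation `ρ` is unramified at `p`, and the eigenvalues (with multiplicities) of every
geometric Frobenius element at `p` correspond under `ι` to the complex numbers in `S`. -/
structure AttachedAt (ρ : Gal(AlgebraicClosure ℚ/ℚ) →* GL (Fin n) (PadicAlgCl ℓ))
    (ι : PadicAlgCl ℓ →+* ℂ) (p : ℕ) (S : Multiset ℂ) : Prop where
  unramified : ∀ Q, PrimeOver p Q → ∀ g, IsInertia Q g → ρ g = 1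
  frobenius : ∀ Q, PrimeOver p Q → ∀ g, IsFrobenius p Q g → ((mat ρ g⁻¹).charpoly.map ι).roots = S

/-- The characters `χ_1, …, χ_m` form a weak abelian direct summand of `ρ`: for each `g` the family
`χ_1(g), …, χ_m(g)` is contained (with multiplicities) in the family of the eigenvalues of `ρ(g)`. -/
def WeakSummand (ρ : Gal(AlgebraicClosure ℚ/ℚ) →* GL (Fin n) (PadicAlgCl ℓ)) {m : ℕ}
    (χ : Fin m → Gal(AlgebraicClosure ℚ/ℚ) →* (PadicAlgCl ℓ)ˣ) : Prop :=
  ∀ g, Multiset.map (fun i => ((χ i g : (PadicAlgCl ℓ)ˣ) : PadicAlgCl ℓ)) Finset.univ.val ≤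
    (mat ρ g).charpoly.roots

end Galois

/-- **Main result.** -/
theorem result (ℓ : ℕ) [Fact ℓ.Prime] (ι : PadicAlgCl ℓ →+* ℂ) (B : Finset ℕ) (hℓ : ℓ ∈ B)
    (n : ℕ) (hn : 0 < n) (w : ℤ) (S : ℕ → Multiset ℂ)
    (htemp : ∀ p : ℕ, p.Prime → p ∉ B → ∀ a ∈ S p, ‖a‖ ^ 2 = (p : ℝ) ^ w)
    (hL : LFunctions B w S)
    (hE : ∃ E : IntermediateField ℚ ℂ, FiniteDimensional ℚ E ∧ ∀ p : ℕ, p.Prime → p ∉ B →
      ∃ f : Polynomial E, (f.map (algebraMap E ℂ)).roots = S p)
    (ρ : Gal(AlgebraicClosure ℚ/ℚ) →* GL (Fin n) (PadicAlgCl ℓ)) (hρ : Continuous ρ)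
    (hatt : ∀ p : ℕ, p.Prime → p ∉ B → AttachedAt ρ ι p (S p))
    (m : ℕ) (χ : Fin m → Gal(AlgebraicClosure ℚ/ℚ) →* (PadicAlgCl ℓ)ˣ)
    (hχ : ∀ i, Continuous (χ i)) (hw : WeakSummand ρ χ) :
    (NotOrthogonal B w S → 3 * m < n) ∧ (NoSelfTwist B w S → 3 * m ≤ n) := by
  obtain ⟨E, hEf, hE'⟩ := hE
  have hatt' : Pool.Agent.K3h66.LN.Att ρ ι B {p : ℕ | p.Prime ∧ p ∉ B} S :=
    Pool.Agent.T9h98.GA.att_all hℓ E hE' hρ fun p hp hpB =>
      ⟨(hatt p hp hpB).unramified, (hatt p hp hpB).frobenius⟩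
  have hchar := Pool.Agent.K3h67.LN.t_CHAR Pool.Agent.K3h4.LN.t_FR
  have hsy : ∀ (M : Multiset ℂ) (k : ℕ), sy M k = pw M k ^ 2 - el M k := by
    intro M k
    unfold sy el
    ring
  have hRF : ∀ v : ℤ, w = 2 * v → Pool.Agent.T9h98.GA.RF B v S := by
    rintro v rfl
    refine ⟨hL.self, hL.twist, hL.standard v rfl, hL.exterior, fun c hc => ?_⟩
    obtain ⟨m, hm0, hm⟩ := hL.symmetric c hc
    simp only [hsy] at hm
    exact ⟨m, hm0, hm⟩
  obtain ⟨h1, h2⟩ := Pool.Agent.T9h98.GA.pure_gal hchar Pool.Agent.Y726.ZI.t1 hatt' htemp hRF E hE'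
    hn χ hχ hw
  refine ⟨fun h => h1 fun v hv c hc => ?_, fun h => h2 fun v hv c hc => ?_⟩
  · subst hv
    have h3 := h c hc
    simp only [hsy] at h3
    exact h3
  · subst hv
    exact h c hc

end Pool.Agent.Results.MP_fa5bba_nt.TemperedOneThird
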