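import Pool.Agent.T9h98.GA.TwistGal
import Pool.Agent.K3h4.LN.Fr
import Pool.Agent.K3h4.LN.Mk

/-!
# Sums of characters and of twists of one small representation

Let `π` be a cuspidal automorphic representation of `GL_n` over `ℚ`, `n ≥ 4`, normalised so that
`π ⊗ |det| ^ (w / 2)` is unitary, without self-twists (`π ⊗ c ≇ π` for all Dirichlet characters
`c ≠ 1`), let `B` be a finite set of primes containing `ℓ` and the ramified primes of `π`, and let
`S p`, `p ∉ B`, be the Satake parameters. There is no assumption of regularity, self-duality,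
temperedness or of Hodge-Tate type. What we use about `π` is

* `LFunctions B w S`: the prime number theorems for `L(s, π ⊗ c)`, `L(s, π × π~)` and
  `L(s, π × π ⊗ c)`, `c` a Dirichlet character (Jacquet, Piatetski-Shapiro and Shalika), and the
  theorem of Shahidi that `L(s, Λ²π ⊗ c)` has no zero at `s = 1`. As the prime number theorem for
  `L(s, Λ²π ⊗ c)` is not known in general for `n ≥ 5`, the last property is used in the following
  weak form only: *if* the mean value of the coefficients of the logarithm of a finite product of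
  such functions over the prime powers exists, it is the sum of the orders `lam c` of the poles;
* the Hecke polynomials of `π` have coefficients in a number field, and the bound of Jacquet and
  Shalika holds at one prime `p ∉ B`.

**Theorem.** Let `ρ` be a continuous `ℓ`-adic representation attached to `π` (unramified at all
primes `p ∉ B`, the eigenvalues of the geometric Frobenius elements correspond to the Satake
parameters). Let `σ` be any continuous representation of dimension `2` or `3`, let `ψ_1, …, ψ_r`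
(`r ≥ 1`) and `χ_1, …, χ_m` be continuous characters, `m ≥ 1` if the dimension of `σ` is `3`. Then the
semisimplification of `ρ` is not `χ_1 ⊕ ⋯ ⊕ χ_m ⊕ ψ_1 ⊗ σ ⊕ ⋯ ⊕ ψ_r ⊗ σ`: it is not true that for
all `g` the eigenvalues of `ρ(g)` are `χ_1(g), …, χ_m(g)` and the numbers `ψ_j(g) a`, `a` an
eigenvalue of `σ(g)`.

The representation `σ` is arbitrary: nothing like modularity, oddness or a Hodge-Tate condition is
supposed. If `σ` has dimension `2` then the sum is essentially self-dual up to twists; the theorem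
applies to essentially self-dual `π` as well (for the others see the starting file
`LowRankNotSelfDual`). For `n = 4` we get, together with `WeakAbelianSummands`: `ρ` is irreducible, or
its semisimplification is the sum of two two-dimensional representations, none of which is a twist of
the other one.

The proof. By the `ℓ`-adic six exponentials theorem and a Galois conjugation argument the
characters `χ_i`, `ψ_j / ψ_1` and `det σ ψ_1 ^ d` are powers of the norm times Dirichlet characters. Let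
`K` be the set of the prime powers `p ^ k` at which all these Dirichlet characters are trivial. On `K`
let `s` be the sum of the normalised Satake parameters and `e` the second elementary symmetric
function. If `d = 2` then `s` is real and `2 r e = (r - 1) s² + 2 m s + (r - m) (2 r + m)`; if `d = 3`
then `2 r e = (r - 1) s² + 2 m s + 2 r s~ - m (m + 3 r)`. As there are no self-twists, the mean values
over `K` of `1` and `|s|²` are equal, the one of `s` is zero, and the one of `e` is zero or equal to the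
one of `1`. This is a contradiction.
-/

set_option autoImplicit false

namespace Pool.Agent.Results.MP_fa5bba_nt.TwistsOfSmall

open Filter Topology NumberField Module Matrix

/-! ### Automorphic side -/

/-- `Q` is a prime ideal above the prime number `p` of the ring of all algebraic integers. -/
def PrimeOver (p : ℕ) (Q : Ideal (𝓞 (AlgebraicClosure ℚ))) : Prop :=
  Q.IsPrime ∧ (p : 𝓞 (AlgebraicClosure ℚ)) ∈ Q

/-- `g` is in the inertia group at `Q`. -/
def IsInertia (Q : Ideal (𝓞 (AlgebraicClosure ℚ))) (g : Gal(AlgebraicClosure ℚ/ℚ)) : Prop :=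
  ∀ x : 𝓞 (AlgebraicClosure ℚ), g • x - x ∈ Q

/-- `g` is an (arithmetic) Frobenius element at the prime ideal `Q` above `p`. -/
def IsFrobenius (p : ℕ) (Q : Ideal (𝓞 (AlgebraicClosure ℚ))) (g : Gal(AlgebraicClosure ℚ/ℚ)) :
    Prop := ∀ x : 𝓞 (AlgebraicClosure ℚ), g • x - x ^ p ∈ Q

/-- `c` is a Dirichlet character unramified outside `B`: there is a character `η` of the absolute
Galois group of `ℚ` with open kernel, unramified at all primes `p ∉ B`, and `c p = η (Frob_p)`. -/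
def IsTwist (B : Finset ℕ) (c : ℕ → ℂ) : Prop :=
  ∃ η : Gal(AlgebraicClosure ℚ/ℚ) →* ℂˣ, IsOpen (η.ker : Set Gal(AlgebraicClosure ℚ/ℚ)) ∧
    ∀ p : ℕ, p.Prime → p ∉ B → ∀ Q, PrimeOver p Q →
      (∀ g, IsInertia Q g → η g = 1) ∧ ∀ g, IsFrobenius p Q g → (η g : ℂ) = c p

/-- the sum of the `k`-th powers of the members of `S` -/
noncomputable def pw (S : Multiset ℂ) (k : ℕ) : ℂ := (S.map (fun a => a ^ k)).sum

/-- the second elementary symmetric function of the `k`-th powers of the members of `S` -/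
noncomputable def el (S : Multiset ℂ) (k : ℕ) : ℂ := (pw S k ^ 2 - pw S (2 * k)) / 2

/-- the sum of `f p k / k` over the prime powers `p ^ k ≤ x`, `p ∉ B`, divided by `π(x)` -/
noncomputable def avg (B : Finset ℕ) (f : ℕ → ℕ → ℂ) (x : ℕ) : ℂ :=
  (∑ p ∈ (Finset.range (x + 1)).filter (fun p => p.Prime ∧ p ∉ B),
    ∑ k ∈ Finset.Icc 1 (Nat.log p x), f p k / (k : ℂ)) / (Nat.primeCounting x : ℂ)

/-- `f` has the mean value `m` over the prime powers -/
def HasMean (B : Finset ℕ) (f : ℕ → ℕ → ℂ) (m : ℝ) : Prop :=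
  Tendsto (avg B f) atTop (𝓝 (m : ℂ))

/-- What is used about the `L`-functions of a cuspidal automorphic representation `π` of `GL_n` with
Satake parameters `p ^ (w / 2) ·`(unitary parameters)` = S p`. In `standard` the weight `w` is
supposed to be even, `w = 2 v`; this is the only case needed. -/
structure LFunctions (B : Finset ℕ) (w : ℤ) (S : ℕ → Multiset ℂ) : Prop where
  /-- `π_p ⊗ |det| ^ (w / 2)` is unitary -/
  unitary : ∀ p : ℕ, p.Prime → p ∉ B →
    (S p).map (fun a => (p : ℂ) ^ w / (starRingEnd ℂ) a) = S p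
  /-- `L(s, π × π~)` has a simple pole at `1` -/
  self : HasMean B (fun p k => ((‖pw (S p) k‖ ^ 2 / (p : ℝ) ^ (w * k) : ℝ) : ℂ)) 1
  /-- `L(s, π ⊗ c)` has no pole or zero on the line `Re s = 1` -/
  standard : ∀ v : ℤ, w = 2 * v → ∀ c, IsTwist B c →
    HasMean B (fun p k => c p ^ k * (pw (S p) k / (p : ℂ) ^ (v * k))) 0
  /-- the prime number theorem for `L(s, π × π ⊗ c)` -/
  dual : ∀ c, IsTwist B c → ∃ m : ℝ,
    HasMean B (fun p k => c p ^ k * (pw (S p) k ^ 2 / (p : ℂ) ^ (w * k))) m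
  /-- `lam c` is the order of the pole of `L(s, Λ²π ⊗ c)` at `s = 1`. It is at most `1`, it depends
  on `c` only, and if `lam c` and `lam e` are not zero then `π ⊗ c ≅ π~ ≅ π ⊗ e`, so that
  `L(s, π × π~ ⊗ c e⁻¹)` has a simple pole at `1`. If the mean value of the coefficients of the
  logarithm of the product of the functions `L(s, Λ²π ⊗ c_j)` exists, then it is `∑ lam c_j`. -/
  exterior : ∃ lam : (ℕ → ℂ) → ℕ, (∀ c, IsTwist B c → lam c ≤ 1) ∧
    (∀ c e, IsTwist B c → IsTwist B e → (∀ p : ℕ, p.Prime → p ∉ B → c p = e p) →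
      lam c = lam e) ∧
    (∀ c e, IsTwist B c → IsTwist B e → lam c ≠ 0 → lam e ≠ 0 →
      HasMean B (fun p k => (c p * (e p)⁻¹) ^ k *
        ((‖pw (S p) k‖ ^ 2 / (p : ℝ) ^ (w * k) : ℝ) : ℂ)) 1) ∧
    ∀ (N : ℕ) (c : Fin N → ℕ → ℂ), (∀ j, IsTwist B (c j)) → ∀ m : ℝ,
      HasMean B (fun p k => ∑ j, c j p ^ k * (el (S p) k / (p : ℂ) ^ (w * k))) m →
        m = ∑ j, (lam (c j) : ℝ)

/-- `π ⊗ c ≇ π` for all Dirichlet characters `c ≠ 1`: `L(s, π × π~ ⊗ c)` has no pole at `1`. -/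
def NoSelfTwist (B : Finset ℕ) (w : ℤ) (S : ℕ → Multiset ℂ) : Prop :=
  ∀ c, IsTwist B c → (∃ p : ℕ, p.Prime ∧ p ∉ B ∧ c p ≠ 1) →
    HasMean B (fun p k => c p ^ k * ((‖pw (S p) k‖ ^ 2 / (p : ℝ) ^ (w * k) : ℝ) : ℂ)) 0

/-! ### Galois side -/

section Galois

variable {ℓ : ℕ} [hℓ : Fact ℓ.Prime] {n : ℕ}

/-- The matrix of `g`. -/
noncomputable def mat (ρ : Gal(AlgebraicClosure ℚ/ℚ) →* GL (Fin n) (PadicAlgCl ℓ))
    (g : Gal(AlgebraicClosure ℚ/ℚ)) : Matrix (Fin n) (Fin n) (PadicAlgCl ℓ) :=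
  (ρ g : GL (Fin n) (PadicAlgCl ℓ))

/-- The representation `ρ` is unramified at `p`, and the eigenvalues (with multiplicities) of every
geometric Frobenius element at `p` correspond under `ι` to the complex numbers in `S`. -/
structure AttachedAt (ρ : Gal(AlgebraicClosure ℚ/ℚ) →* GL (Fin n) (PadicAlgCl ℓ))
    (ι : PadicAlgCl ℓ →+* ℂ) (p : ℕ) (S : Multiset ℂ) : Prop where
  unramified : ∀ Q, PrimeOver p Q → ∀ g, IsInertia Q g → ρ g = 1
  frobenius : ∀ Q, PrimeOver p Q → ∀ g, IsFrobenius p Q g → ((mat ρ g⁻¹).charpoly.map ι).roots = S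

/-- `ρ` and `χ_1 ⊕ ⋯ ⊕ χ_m ⊕ ψ_1 ⊗ σ ⊕ ⋯ ⊕ ψ_r ⊗ σ` have the same eigenvalues (with
multiplicities), that is, the same characteristic polynomials and so the same semisimplification. -/
def IsSumOfTwists (ρ : Gal(AlgebraicClosure ℚ/ℚ) →* GL (Fin n) (PadicAlgCl ℓ)) {d r m : ℕ}
    (σ : Gal(AlgebraicClosure ℚ/ℚ) →* GL (Fin d) (PadicAlgCl ℓ))
    (ψ : Fin r → Gal(AlgebraicClosure ℚ/ℚ) →* (PadicAlgCl ℓ)ˣ)
    (χ : Fin m → Gal(AlgebraicClosure ℚ/ℚ) →* (PadicAlgCl ℓ)ˣ) : Prop :=
  ∀ g, (mat ρ g).charpoly.roots =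
    (∑ j, ((mat σ g).charpoly.roots).map
      (fun a => ((ψ j g : (PadicAlgCl ℓ)ˣ) : PadicAlgCl ℓ) * a)) +
    Multiset.map (fun i => ((χ i g : (PadicAlgCl ℓ)ˣ) : PadicAlgCl ℓ)) Finset.univ.val

end Galois

/-- **Main result.** -/
theorem result (ℓ : ℕ) [Fact ℓ.Prime] (ι : PadicAlgCl ℓ →+* ℂ) (B : Finset ℕ) (hℓ : ℓ ∈ B)
    (n : ℕ) (hn : 4 ≤ n) (w : ℤ) (S : ℕ → Multiset ℂ)
    (hL : LFunctions B w S) (hT : NoSelfTwist B w S)
    (hE : ∃ E : IntermediateField ℚ ℂ, FiniteDimensional ℚ E ∧ ∀ p : ℕ, p.Prime → p ∉ B →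
      ∃ f : Polynomial E, (f.map (algebraMap E ℂ)).roots = S p)
    (hJS : ∃ p : ℕ, p.Prime ∧ p ∉ B ∧
      ∀ a ∈ S p, (p : ℝ) ^ (w - 1) < ‖a‖ ^ 2 ∧ ‖a‖ ^ 2 < (p : ℝ) ^ (w + 1))
    (ρ : Gal(AlgebraicClosure ℚ/ℚ) →* GL (Fin n) (PadicAlgCl ℓ)) (hρ : Continuous ρ)
    (hatt : ∀ p : ℕ, p.Prime → p ∉ B → AttachedAt ρ ι p (S p))
    (d r m : ℕ) (hr : 0 < r) (hd : d = 2 ∨ (d = 3 ∧ 0 < m))
    (σ : Gal(AlgebraicClosure ℚ/ℚ) →* GL (Fin d) (PadicAlgCl ℓ)) (hσ : Continuous σ)
    (ψ : Fin r → Gal(AlgebraicClosure ℚ/ℚ) →* (PadicAlgCl ℓ)ˣ) (hψ : ∀ j, Continuous (ψ j))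
    (χ : Fin m → Gal(AlgebraicClosure ℚ/ℚ) →* (PadicAlgCl ℓ)ˣ) (hχ : ∀ i, Continuous (χ i)) :
    ¬ IsSumOfTwists ρ σ ψ χ := by
  intro heq
  obtain ⟨E, hEf, hE'⟩ := hE
  have hatt' : Pool.Agent.K3h66.LN.Att ρ ι B {p : ℕ | p.Prime ∧ p ∉ B} S :=
    Pool.Agent.T9h98.GA.att_all hℓ E hE' hρ fun p hp hpB =>
      ⟨(hatt p hp hpB).unramified, (hatt p hp hpB).frobenius⟩
  have hchar := Pool.Agent.K3h67.LN.t_CHAR Pool.Agent.K3h4.LN.t_FR
  have hC := Pool.Agent.Y726.ZI.t1
  have hnot : ∀ c, IsTwist B c → ¬ Pool.Agent.T9h98.GA.Triv B c →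
      HasMean B (fun p k => c p ^ k * ((‖pw (S p) k‖ ^ 2 / (p : ℝ) ^ (w * k) : ℝ) : ℂ)) 0 := by
    intro c hc hne
    refine hT c hc ?_
    unfold Pool.Agent.T9h98.GA.Triv at hne
    push Not at hne
    exact hne
  obtain ⟨-, hmul, hinv, -⟩ := Pool.Agent.K3h4.LN.t_TW B
  have hTF : Pool.Agent.T9h98.GA.TF B w S := by
    refine ⟨hL.unitary, hL.self, hnot, hL.standard, hL.dual, ?_⟩
    obtain ⟨lam, h1, h2, h3, h4⟩ := hL.exterior
    refine ⟨lam, h1, h2, fun c e hc he hc0 he0 p hp hpB => ?_, h4⟩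
    have h5 := h3 c e hc he hc0 he0
    by_contra hne
    have he1 := Pool.Agent.T9h98.GA.tw_ne Pool.Agent.K3h4.LN.t_TW he hp hpB
    have h6 := hnot (fun p => c p * (e p)⁻¹) (hmul _ _ hc (hinv _ he)) fun ht => by
      apply hne
      have := ht p hp hpB
      simp only at this
      field_simp at this
      exact this
    have h7 := Pool.Agent.K3h67.LN.hm_unique h5 h6
    norm_num at h7
  rcases hd with rfl | ⟨rfl, hm⟩
  · obtain ⟨hn', v, hv, t, c, ht, hc, hu⟩ := Pool.Agent.T9h98.GA.gal_dec hchar hatt' hL.unitary E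
      hE' hJS two_pos σ hσ hr ψ hψ χ hχ heq
    obtain ⟨δ, hδ, hdec⟩ := hu w (by push_cast; ring)
    exact Pool.Agent.T9h98.GA.no_two hC hTF hr (by omega) v hv t ht c hc δ hδ hdec
  · obtain ⟨hn', v, hv, t, c, ht, hc, hu⟩ := Pool.Agent.T9h98.GA.gal_dec hchar hatt' hL.unitary E
      hE' hJS three_pos σ hσ hr ψ hψ χ hχ heq
    have hv' : w = 2 * v := hv.resolve_left hm.ne'
    obtain ⟨δ, hδ, hdec⟩ := hu (3 * v) (by rw [hv']; push_cast; ring)
    exact Pool.Agent.T9h98.GA.no_three hC hTF hr hm v hv' t ht c hc δ hδ hdec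

end Pool.Agent.Results.MP_fa5bba_nt.TwistsOfSmall
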