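import Pool.Agent.T9h98.GA.Main2
import Pool.Agent.K3h4.LN.Fr
import Pool.Agent.K3h4.LN.Mk

/-!
# Weak abelian direct summands of Galois representations attached to cuspidal automorphic
representations of `GL_n` over `ℚ`

Let `π` be a cuspidal automorphic representation of `GL_n` over `ℚ`, `n ≥ 4`, normalised so that
`π ⊗ |det| ^ (w / 2)` is unitary, let `B` be a finite set of primes containing `ℓ` and the ramified
primes of `π`, and let `S p`, `p ∉ B`, be the Satake parameters. There is no assumption of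
regularity, self-duality, temperedness or of Hodge-Tate type. What we use about `π` is

* `LFunctions B w S`: the prime number theorem for `L(s, π ⊗ c)`, `c` a Dirichlet character
  (Jacquet and Shalika: this function is holomorphic and not zero on the line `Re s = 1`), and the
  theorem of Shahidi that `L(s, Λ²π ⊗ c)` is not zero on the line `Re s = 1`. As for `n ≥ 5` the prime
  number theorem for `L(s, Λ²π ⊗ c)` is not known in general, the second property is used in the
  following weak form only: *if* the mean value of the coefficients of the logarithm of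
  `L(s, Λ²π ⊗ c)` over the prime powers exists, it is the order of the pole at `s = 1`, and so it is
  not negative;
* the Hecke polynomials of `π` have coefficients in a number field, and the bound of Jacquet and
  Shalika holds at one prime `p ∉ B`.

**Theorem.** Let `ρ` be a continuous `ℓ`-adic representation attached to `π` (unramified at all
primes `p ∉ B`, the eigenvalues of the geometric Frobenius elements correspond to the Satake
parameters).

(1) If `χ_1, …, χ_m` are continuous characters of the absolute Galois group such that, for each `g`,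
the family `χ_1(g), …, χ_m(g)` is contained in the family of the eigenvalues of `ρ(g)` (a weak abelian
direct summand of `ρ` in the sense of Böckle and Hui), then `m ≤ n - 4`.

(2) In a chain of subrepresentations of `ρ` at most `n - 4` steps are one-dimensional. In
particular at most `n - 4` of the Jordan-Hölder constituents of `ρ` are characters.

For `n = 4` this says that no continuous character is an eigenvalue of `ρ`, so that `ρ` is either
irreducible or all its constituents are two-dimensional, whether `π` is essentially self-dual or not.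

The proof. By the `ℓ`-adic six exponentials theorem the `χ_i` are of the form
`χ_i(Frob_p) = p ^ s_i c_i(p)`, `c_i` of finite order. If `s_i` is not an integer then for large `p`
Galois conjugation over the field of the Hecke polynomials shows that `ζ χ_i(g)` is an eigenvalue as
well, for a root of unity `ζ ≠ 1` of bounded order, but there are Frobenius elements `g` arbitrarily
close to `1`. So `s_i = w / 2`, the `c_i` are Dirichlet characters, and so is the product `c_0` of the
remaining `d = n - m ≤ 3` normalised Satake parameters. Let `K` be the set of the prime powers `p ^ k`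
with `c_0(p) ^ k = c_1(p) ^ k = … = 1`. If `T` is the family of the remaining parameters, raised to the
power `k` and normalised, then on `K` we have `Λ²T = 1` if `d = 2`, and `Λ²T = T~` if `d = 3`. So on `K`
the second elementary symmetric function of all the parameters is
`m (m - 1) / 2 + m (s - m) + 1`, respectively `m (m - 1) / 2 + m (s - m) + (s~ - m)`, where `s` is the
sum of all the parameters. The mean value of `s` over `K` is zero. So the mean value of the
second elementary symmetric function over `K` exists and is negative, a contradiction.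
-/

set_option autoImplicit false

namespace Pool.Agent.Results.MP_fa5bba_nt.WeakAbelianSummands

open Filter Topology NumberField Module Matrix

/-! ### Automorphic side -/

/-- `Q` is a prime ideal above the prime number `p` of the ring of all algebraic integers. -/
def PrimeOver (p : ℕ) (Q : Ideal (𝓞 (AlgebraicClosure ℚ))) : Prop :=
  Q.IsPrime ∧ (p : 𝓞 (AlgebraicClosure ℚ)) ∈ Q

/-- `g` is in the inertia group at `Q`. -/
def IsInertia (Q : Ideal (𝓞 (AlgebraicClosure ℚ))) (g : Gal(AlgebraicClosure ℚ/ℚ)) : Prop :=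
  ∀ x : 𝓞 (AlgebraicClosure ℚ), g • x - x ∈ Q

/-- `g` is an (arithmetic) Frobenius element at the prime ideal `Q` above `p`. -/
def IsFrobenius (p : ℕ) (Q : Ideal (𝓞 (AlgebraicClosure ℚ))) (g : Gal(AlgebraicClosure ℚ/ℚ)) :
    Prop := ∀ x : 𝓞 (AlgebraicClosure ℚ), g • x - x ^ p ∈ Q

/-- `c` is a Dirichlet character unramified outside `B`: there is a character `η` of the absolute
Galois group of `ℚ` with open kernel, unramified at all primes `p ∉ B`, and `c p = η (Frob_p)`. -/
def IsTwist (B : Finset ℕ) (c : ℕ → ℂ) : Prop :=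
  ∃ η : Gal(AlgebraicClosure ℚ/ℚ) →* ℂˣ, IsOpen (η.ker : Set Gal(AlgebraicClosure ℚ/ℚ)) ∧
    ∀ p : ℕ, p.Prime → p ∉ B → ∀ Q, PrimeOver p Q →
      (∀ g, IsInertia Q g → η g = 1) ∧ ∀ g, IsFrobenius p Q g → (η g : ℂ) = c p

/-- the sum of the `k`-th powers of the members of `S` -/
noncomputable def pw (S : Multiset ℂ) (k : ℕ) : ℂ := (S.map (fun a => a ^ k)).sum

/-- the second elementary symmetric function of the `k`-th powers of the members of `S` -/
noncomputable def el (S : Multiset ℂ) (k : ℕ) : ℂ := (pw S k ^ 2 - pw S (2 * k)) / 2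

/-- the sum of `f p k / k` over the prime powers `p ^ k ≤ x`, `p ∉ B`, divided by `π(x)` -/
noncomputable def avg (B : Finset ℕ) (f : ℕ → ℕ → ℂ) (x : ℕ) : ℂ :=
  (∑ p ∈ (Finset.range (x + 1)).filter (fun p => p.Prime ∧ p ∉ B),
    ∑ k ∈ Finset.Icc 1 (Nat.log p x), f p k / (k : ℂ)) / (Nat.primeCounting x : ℂ)

/-- `f` has the mean value `m` over the prime powers -/
def HasMean (B : Finset ℕ) (f : ℕ → ℕ → ℂ) (m : ℝ) : Prop :=
  Tendsto (avg B f) atTop (𝓝 (m : ℂ))

/-- What is used about the `L`-functions `L(s, π ⊗ c)` and `L(s, Λ²π ⊗ c)` of a cuspidal automorphic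
representation `π` of `GL_n` with Satake parameters `p ^ (w / 2) ·`(unitary parameters)` = S p`. In the
last two fields the weight `w` is supposed to be even, `w = 2 v`; this is the only case needed. -/
structure LFunctions (B : Finset ℕ) (w : ℤ) (S : ℕ → Multiset ℂ) : Prop where
  /-- `π_p ⊗ |det| ^ (w / 2)` is unitary -/
  unitary : ∀ p : ℕ, p.Prime → p ∉ B →
    (S p).map (fun a => (p : ℂ) ^ w / (starRingEnd ℂ) a) = S p
  /-- `L(s, π ⊗ c)` has no pole or zero on the line `Re s = 1` (Jacquet and Shalika) -/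
  standard : ∀ v : ℤ, w = 2 * v → ∀ c, IsTwist B c →
    HasMean B (fun p k => c p ^ k * (pw (S p) k / (p : ℂ) ^ (v * k))) 0
  /-- `L(s, Λ²π ⊗ c)` has no zero at `s = 1` (Shahidi). So if the mean value exists, it is not
  negative. -/
  exterior : ∀ v : ℤ, w = 2 * v → ∀ c, IsTwist B c → ∀ m : ℝ,
    HasMean B (fun p k => c p ^ k * (el (S p) k / (p : ℂ) ^ (w * k))) m → 0 ≤ m

/-! ### Galois side -/

section Galois

variable {ℓ : ℕ} [hℓ : Fact ℓ.Prime] {n : ℕ}

/-- The matrix of `g`. -/
noncomputable def mat (ρ : Gal(AlgebraicClosure ℚ/ℚ) →* GL (Fin n) (PadicAlgCl ℓ))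
    (g : Gal(AlgebraicClosure ℚ/ℚ)) : Matrix (Fin n) (Fin n) (PadicAlgCl ℓ) :=
  (ρ g : GL (Fin n) (PadicAlgCl ℓ))

/-- The representation `ρ` is unramified at `p`, and the eigenvalues (with multiplicities) of every
geometric Frobenius element at `p` correspond under `ι` to the complex numbers in `S`. -/
structure AttachedAt (ρ : Gal(AlgebraicClosure ℚ/ℚ) →* GL (Fin n) (PadicAlgCl ℓ))
    (ι : PadicAlgCl ℓ →+* ℂ) (p : ℕ) (S : Multiset ℂ) : Prop where
  unramified : ∀ Q, PrimeOver p Q → ∀ g, IsInertia Q g → ρ g = 1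
  frobenius : ∀ Q, PrimeOver p Q → ∀ g, IsFrobenius p Q g → ((mat ρ g⁻¹).charpoly.map ι).roots = S

/-- `U` is a subrepresentation of `ρ`. -/
def Stable (ρ : Gal(AlgebraicClosure ℚ/ℚ) →* GL (Fin n) (PadicAlgCl ℓ))
    (U : Submodule (PadicAlgCl ℓ) (Fin n → PadicAlgCl ℓ)) : Prop := ∀ g, ∀ x ∈ U, mat ρ g *ᵥ x ∈ U

/-- The characters `χ_1, …, χ_m` form a weak abelian direct summand of `ρ`: for each `g` the family
`χ_1(g), …, χ_m(g)` is contained (with multiplicities) in the family of the eigenvalues of `ρ(g)`. -/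
def WeakSummand (ρ : Gal(AlgebraicClosure ℚ/ℚ) →* GL (Fin n) (PadicAlgCl ℓ)) {m : ℕ}
    (χ : Fin m → Gal(AlgebraicClosure ℚ/ℚ) →* (PadicAlgCl ℓ)ˣ) : Prop :=
  ∀ g, Multiset.map (fun i => ((χ i g : (PadicAlgCl ℓ)ˣ) : PadicAlgCl ℓ)) Finset.univ.val ≤
    (mat ρ g).charpoly.roots

end Galois

/-- **Main result.** -/
theorem result (ℓ : ℕ) [Fact ℓ.Prime] (ι : PadicAlgCl ℓ →+* ℂ) (B : Finset ℕ) (hℓ : ℓ ∈ B)
    (n : ℕ) (hn : 4 ≤ n) (w : ℤ) (S : ℕ → Multiset ℂ) (hL : LFunctions B w S)
    (hE : ∃ E : IntermediateField ℚ ℂ, FiniteDimensional ℚ E ∧ ∀ p : ℕ, p.Prime → p ∉ B →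
      ∃ f : Polynomial E, (f.map (algebraMap E ℂ)).roots = S p)
    (hJS : ∃ p : ℕ, p.Prime ∧ p ∉ B ∧
      ∀ a ∈ S p, (p : ℝ) ^ (w - 1) < ‖a‖ ^ 2 ∧ ‖a‖ ^ 2 < (p : ℝ) ^ (w + 1))
    (ρ : Gal(AlgebraicClosure ℚ/ℚ) →* GL (Fin n) (PadicAlgCl ℓ)) (hρ : Continuous ρ)
    (hatt : ∀ p : ℕ, p.Prime → p ∉ B → AttachedAt ρ ι p (S p)) :
    (∀ (m : ℕ) (χ : Fin m → Gal(AlgebraicClosure ℚ/ℚ) →* (PadicAlgCl ℓ)ˣ),
      (∀ i, Continuous (χ i)) → WeakSummand ρ χ → m + 4 ≤ n) ∧
    (∀ U : ℕ → Submodule (PadicAlgCl ℓ) (Fin n → PadicAlgCl ℓ), (∀ i, Stable ρ (U i)) →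
      Monotone U → {i | finrank (PadicAlgCl ℓ) (U (i + 1)) =
        finrank (PadicAlgCl ℓ) (U i) + 1}.Finite ∧
      {i | finrank (PadicAlgCl ℓ) (U (i + 1)) =
        finrank (PadicAlgCl ℓ) (U i) + 1}.ncard + 4 ≤ n) := by
  obtain ⟨E, hEf, hE'⟩ := hE
  have hatt' : Pool.Agent.K3h66.LN.Att ρ ι B {p : ℕ | p.Prime ∧ p ∉ B} S :=
    Pool.Agent.T9h98.GA.att_all hℓ E hE' hρ fun p hp hpB =>
      ⟨(hatt p hp hpB).unramified, (hatt p hp hpB).frobenius⟩
  have hchar := Pool.Agent.K3h67.LN.t_CHAR Pool.Agent.K3h4.LN.t_FR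
  have hLG : ∀ v : ℤ, w = 2 * v → Pool.Agent.T9h98.GA.LG B v S := by
    rintro v rfl
    exact ⟨hL.unitary, hL.standard v rfl, hL.exterior v rfl⟩
  have hA : ∀ (m : ℕ) (χ : Fin m → Gal(AlgebraicClosure ℚ/ℚ) →* (PadicAlgCl ℓ)ˣ),
      (∀ i, Continuous (χ i)) → WeakSummand ρ χ → m + 4 ≤ n := fun m χ hχ hw =>
    Pool.Agent.T9h98.GA.bound' hchar Pool.Agent.Y726.ZI.t1 hatt' hLG E hE' hJS hn χ hχ hw
  refine ⟨hA, fun U hU hmono => ?_⟩
  have hfin : ∀ J : Finset ℕ, (∀ i ∈ J, finrank (PadicAlgCl ℓ) (U (i + 1)) =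
      finrank (PadicAlgCl ℓ) (U i) + 1) → J.card + 4 ≤ n := by
    intro J hJ
    obtain ⟨χ, hχ, hw⟩ := Pool.Agent.T9h98.GA.chain_chars hatt' U hU hmono (J.sup id + 1) J
      (fun i hi => Finset.mem_range.2 (Nat.lt_succ_of_le (Finset.le_sup (f := id) hi))) hJ
    exact hA _ χ hχ hw
  have hf : {i | finrank (PadicAlgCl ℓ) (U (i + 1)) =
        finrank (PadicAlgCl ℓ) (U i) + 1}.Finite := by
    by_contra hinf
    obtain ⟨J, hJ, hc⟩ := Set.Infinite.exists_subset_card_eq hinf n
    have := hfin J fun i hi => hJ hi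
    omega
  refine ⟨hf, ?_⟩
  have h1 := hfin hf.toFinset fun i hi => (Set.Finite.mem_toFinset hf).1 hi
  rwa [← Set.ncard_eq_toFinset_card _ hf] at h1

end Pool.Agent.Results.MP_fa5bba_nt.WeakAbelianSummands
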